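import Pool.Agent.H95.TT.Hocolim

set_option linter.unusedSectionVars false

/-!
Idempotents split in a triangulated category with countable coproducts.
-/

open CategoryTheory CategoryTheory.Limits CategoryTheory.Pretriangulated

namespace Pool.Agent.H95.TT

open Pool.Agent.H75.TT

variable {C : Type 1} [Category.{0} C] [Preadditive C] [HasCoproducts.{0} C]
  [HasZeroObject C] [HasShift C ℤ] [∀ n : ℤ, (shiftFunctor C n).Additive] [Pretriangulated C]

/-- Idempotents split. -/
theorem idem_split {X : C} (e : X ⟶ X) (he : e ≫ e = e) :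
    ∃ (Y : C) (i : Y ⟶ X) (p : X ⟶ Y), i ≫ p = 𝟙 Y ∧ p ≫ i = e := by
  obtain ⟨L, j, hL⟩ := exists_isHocolim (fun _ : ℕ => X) (fun _ => e)
  let ρ : ∀ _ : ℕ, X ⟶ ∐ (fun _ : ℕ => X) := fun n =>
    (𝟙 X - e) ≫ Sigma.ι (fun _ : ℕ => X) n -
      ∑ k ∈ Finset.range n, e ≫ Sigma.ι (fun _ : ℕ => X) k
  have hr : (𝟙 (∐ (fun _ : ℕ => X)) - smap (fun _ => e)) ≫ Sigma.desc ρ = 𝟙 _ := by
    refine Sigma.hom_ext _ _ fun n => ?_
    have h1 : e ≫ ρ (n + 1) = - ∑ k ∈ Finset.range (n + 1), e ≫ Sigma.ι (fun _ : ℕ => X) k := by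
      simp only [ρ, Preadditive.comp_sub, Preadditive.sub_comp, Category.id_comp,
        Preadditive.comp_sum]
      rw [← Category.assoc, he, sub_self, zero_sub]
      congr 1
      refine Finset.sum_congr rfl fun k _ => ?_
      rw [← Category.assoc, he]
    rw [Preadditive.sub_comp, Preadditive.comp_sub, Category.id_comp, ι_smap_assoc,
      Sigma.ι_desc, Sigma.ι_desc, h1, Category.comp_id]
    simp only [ρ, Preadditive.sub_comp, Category.id_comp]
    rw [Finset.sum_range_succ]
    abel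
  have hj : ∀ n, e ≫ j n = j n := by
    intro n
    rw [← hL.comp_i n, ← Category.assoc, he]
  have hj0 : ∀ n, j n = j 0 := by
    intro n
    induction n with
    | zero => rfl
    | succ n ih => rw [← ih, ← hj (n + 1), hL.comp_i n]
  obtain ⟨q, hq⟩ := hL.exists_desc (fun _ => e) (fun _ => he)
  refine ⟨L, q, j 0, ?_, hq 0⟩
  refine hL.hom_ext_of_retraction _ hr fun n => ?_
  rw [← Category.assoc, hq, hj, Category.comp_id]
  exact (hj0 n).symm

end Pool.Agent.H95.TT
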