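import Pool.Agent.H95.TT.Tri

set_option linter.unusedSectionVars false

/-!
Homotopy colimits of sequences in a triangulated category with coproducts.
-/

open CategoryTheory CategoryTheory.Limits CategoryTheory.Pretriangulated
open scoped DirectSum

namespace Pool.Agent.H95.TT

open Pool.Agent.H75.TT

section smap

variable {C : Type 1} [Category.{0} C] [HasCoproducts.{0} C]

/-- The shift map on the coproduct of a sequence. -/
noncomputable def smap {X : ℕ → C} (φ : ∀ n, X n ⟶ X (n + 1)) : ∐ X ⟶ ∐ X :=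
  Sigma.desc fun n => φ n ≫ Sigma.ι X (n + 1)

@[reassoc (attr := simp)]
lemma ι_smap {X : ℕ → C} (φ : ∀ n, X n ⟶ X (n + 1)) (n : ℕ) :
    Sigma.ι X n ≫ smap φ = φ n ≫ Sigma.ι X (n + 1) := by
  simp [smap]

/-- Transition maps of a sequence. -/
abbrev tr {X : ℕ → C} (φ : ∀ n, X n ⟶ X (n + 1)) (n m : ℕ) (h : n ≤ m) : X n ⟶ X m :=
  Functor.OfSequence.map φ n m h

@[simp]
lemma tr_self {X : ℕ → C} (φ : ∀ n, X n ⟶ X (n + 1)) (n : ℕ) : tr φ n n le_rfl = 𝟙 _ :=
  Functor.OfSequence.map_id φ n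

lemma tr_succ {X : ℕ → C} (φ : ∀ n, X n ⟶ X (n + 1)) (n m : ℕ) (h : n ≤ m) :
    tr φ n (m + 1) (h.trans (Nat.le_succ m)) = tr φ n m h ≫ φ m := by
  rw [tr, Functor.OfSequence.map_comp φ n m (m + 1) h (Nat.le_succ m),
    Functor.OfSequence.map_le_succ]

lemma tr_succ' {X : ℕ → C} (φ : ∀ n, X n ⟶ X (n + 1)) (n m : ℕ) (h : n + 1 ≤ m) :
    tr φ n m ((Nat.le_succ n).trans h) = φ n ≫ tr φ (n + 1) m h := by
  rw [tr, Functor.OfSequence.map_comp φ n (n + 1) m (Nat.le_succ n) h,
    Functor.OfSequence.map_le_succ]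

lemma tr_comp {X : ℕ → C} (φ : ∀ n, X n ⟶ X (n + 1)) (n m k : ℕ) (h : n ≤ m) (h' : m ≤ k) :
    tr φ n m h ≫ tr φ m k h' = tr φ n k (h.trans h') :=
  (Functor.OfSequence.map_comp φ n m k h h').symm

lemma tr_comp_of_compat {X : ℕ → C} (φ : ∀ n, X n ⟶ X (n + 1)) {Z : C} (z : ∀ n, X n ⟶ Z)
    (hz : ∀ n, φ n ≫ z (n + 1) = z n) (n m : ℕ) (h : n ≤ m) : tr φ n m h ≫ z m = z n := by
  induction m, h using Nat.le_induction with
  | base => rw [tr_self, Category.id_comp]
  | succ m hm ih => rw [tr_succ φ n m hm, Category.assoc, hz, ih]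

end smap

section hocolim

variable {C : Type 1} [Category.{0} C] [Preadditive C] [HasCoproducts.{0} C]
  [HasZeroObject C] [HasShift C ℤ] [∀ n : ℤ, (shiftFunctor C n).Additive] [Pretriangulated C]

/-- `L`, with the maps `i n : X n ⟶ L`, is a homotopy colimit of the sequence. -/
def IsHocolim (X : ℕ → C) (φ : ∀ n, X n ⟶ X (n + 1)) (L : C) (i : ∀ n, X n ⟶ L) : Prop :=
  ∃ δ : L ⟶ (∐ X)⟦(1 : ℤ)⟧, Tri (𝟙 (∐ X) - smap φ) (Sigma.desc i) δ

lemma exists_isHocolim (X : ℕ → C) (φ : ∀ n, X n ⟶ X (n + 1)) :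
    ∃ (L : C) (i : ∀ n, X n ⟶ L), IsHocolim X φ L i := by
  obtain ⟨L, g, δ, hT⟩ := exists_tri3 (𝟙 (∐ X) - smap φ)
  refine ⟨L, fun n => Sigma.ι X n ≫ g, δ, ?_⟩
  have : Sigma.desc (fun n => Sigma.ι X n ≫ g) = g := by
    refine Sigma.hom_ext _ _ fun n => ?_
    simp
  rw [this]
  exact hT

namespace IsHocolim

variable {X : ℕ → C} {φ : ∀ n, X n ⟶ X (n + 1)} {L : C} {i : ∀ n, X n ⟶ L}

lemma sub_desc_eq_zero_iff {Z : C} (z : ∀ n, X n ⟶ Z) :
    (𝟙 (∐ X) - smap φ) ≫ Sigma.desc z = 0 ↔ ∀ n, φ n ≫ z (n + 1) = z n := by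
  constructor
  · intro h n
    have h1 := congrArg (fun g => Sigma.ι X n ≫ g) h
    simp only [Preadditive.sub_comp, Preadditive.comp_sub, Category.id_comp, comp_zero] at h1
    rw [ι_smap_assoc, Sigma.ι_desc, Sigma.ι_desc, sub_eq_zero] at h1
    exact h1.symm
  · intro h
    refine Sigma.hom_ext _ _ fun n => ?_
    rw [Preadditive.sub_comp, Preadditive.comp_sub, Category.id_comp, comp_zero, ι_smap_assoc,
      Sigma.ι_desc, Sigma.ι_desc, h n, sub_self]

/-- Compatibility of the structure maps. -/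
lemma comp_i (h : IsHocolim X φ L i) (n : ℕ) : φ n ≫ i (n + 1) = i n := by
  obtain ⟨δ, hT⟩ := h
  exact (sub_desc_eq_zero_iff i).1 hT.c12 n

lemma tr_i (h : IsHocolim X φ L i) (n m : ℕ) (hnm : n ≤ m) : tr φ n m hnm ≫ i m = i n :=
  tr_comp_of_compat φ i h.comp_i n m hnm

/-- Compatible maps extend to the homotopy colimit. -/
lemma exists_desc (h : IsHocolim X φ L i) {Z : C} (z : ∀ n, X n ⟶ Z)
    (hz : ∀ n, φ n ≫ z (n + 1) = z n) : ∃ f : L ⟶ Z, ∀ n, i n ≫ f = z n := by
  obtain ⟨δ, hT⟩ := h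
  obtain ⟨f, hf⟩ := hT.yo2 (Sigma.desc z) ((sub_desc_eq_zero_iff z).2 hz)
  refine ⟨f, fun n => ?_⟩
  have h1 := congrArg (fun g => Sigma.ι X n ≫ g) hf
  simp only [Sigma.ι_desc, Sigma.ι_desc_assoc] at h1
  exact h1.symm

/-- The map `1 - s` is injective on maps from compact objects. -/
lemma eq_zero_of_comp_sub {c : C} (hc : IsCpt c) (a : c ⟶ ∐ X)
    (h : a ≫ (𝟙 (∐ X) - smap φ) = 0) : a = 0 := by
  classical
  obtain ⟨s, b, hb⟩ := IsCpt.exists_sum hc a
  -- components
  have hcomp : ∀ n, a ≫ prj X n = if n ∈ s then b n else 0 := by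
    intro n
    rw [hb, Preadditive.sum_comp]
    split_ifs with hn
    · rw [Finset.sum_eq_single n]
      · simp
      · intro m _ hm
        rw [Category.assoc, ι_prj_ne X hm, comp_zero]
      · intro h'
        exact absurd hn h'
    · refine Finset.sum_eq_zero fun m hm => ?_
      rw [Category.assoc, ι_prj_ne X (fun h' : m = n => hn (h' ▸ hm)), comp_zero]
  have hz : ∀ n, a ≫ prj X n = 0 := by
    intro n
    induction n with
    | zero =>
      have h1 := congrArg (fun g => g ≫ prj X 0) h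
      simp only [Preadditive.comp_sub, Preadditive.sub_comp, Category.comp_id, zero_comp,
        Category.assoc] at h1
      have h2 : smap φ ≫ prj X 0 = 0 := by
        refine Sigma.hom_ext _ _ fun m => ?_
        rw [ι_smap_assoc, ι_prj_ne X (Nat.succ_ne_zero m), comp_zero, comp_zero]
      rwa [h2, comp_zero, sub_zero] at h1
    | succ n ih =>
      have h1 := congrArg (fun g => g ≫ prj X (n + 1)) h
      simp only [Preadditive.comp_sub, Preadditive.sub_comp, Category.comp_id, zero_comp,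
        Category.assoc] at h1
      have h2 : smap φ ≫ prj X (n + 1) = prj X n ≫ φ n := by
        refine Sigma.hom_ext _ _ fun m => ?_
        rw [ι_smap_assoc]
        by_cases hm : m = n
        · subst hm
          simp
        · rw [ι_prj_ne X (by omega : m + 1 ≠ n + 1), comp_zero, ι_prj_ne_assoc X hm, zero_comp]
      rw [h2, ← Category.assoc, ih, zero_comp, sub_zero] at h1
      exact h1
  rw [hb]
  refine Finset.sum_eq_zero fun n hn => ?_
  have := hz n
  rw [hcomp, if_pos hn] at this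
  rw [this, zero_comp]

/-- Maps from compact objects to the homotopy colimit factor through some `X n`. -/
lemma exists_factor (h : IsHocolim X φ L i) {c : C} (hc : IsCpt c) (f : c ⟶ L) :
    ∃ (n : ℕ) (g : c ⟶ X n), g ≫ i n = f := by
  classical
  have h' := h
  obtain ⟨δ, hT⟩ := h'
  -- `f ≫ δ = 0`
  have h0 : f ≫ δ = 0 := by
    have h1 : (f ≫ δ) ≫ (𝟙 (∐ X) - smap φ)⟦(1 : ℤ)⟧' = 0 := by
      rw [Category.assoc, hT.c31, comp_zero]
    let e : c ≅ (c⟦(-1 : ℤ)⟧)⟦(1 : ℤ)⟧ := (shiftNegShift c (1 : ℤ)).symm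
    obtain ⟨a, ha⟩ := (shiftFunctor C (1 : ℤ)).map_surjective (e.inv ≫ f ≫ δ)
    have h2 : a ≫ (𝟙 (∐ X) - smap φ) = 0 := by
      apply (shiftFunctor C (1 : ℤ)).map_injective
      rw [Functor.map_comp, ha, Category.assoc, h1, comp_zero, Functor.map_zero]
    have h3 := eq_zero_of_comp_sub (isCpt_shift hc (-1)) a h2
    rw [h3, Functor.map_zero] at ha
    rw [← cancel_epi e.inv, ← ha, comp_zero]
  obtain ⟨g, hg⟩ := hT.co3 f h0
  obtain ⟨s, b, hb⟩ := IsCpt.exists_sum hc g
  refine ⟨s.sup id, ∑ j ∈ s.attach, b j.1 ≫ tr φ j.1 (s.sup id)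
    (Finset.le_sup (f := id) j.2), ?_⟩
  rw [hg, hb, Preadditive.sum_comp, Preadditive.sum_comp, ← Finset.sum_attach s]
  refine Finset.sum_congr rfl fun j _ => ?_
  rw [Category.assoc, h.tr_i, Category.assoc, Sigma.ι_desc]

/-- A map from a compact object which dies in the homotopy colimit dies at a finite stage. -/
lemma exists_tr_eq_zero (h : IsHocolim X φ L i) {c : C} (hc : IsCpt c) {n : ℕ} (g : c ⟶ X n)
    (hg : g ≫ i n = 0) : ∃ (m : ℕ) (hm : n ≤ m), g ≫ tr φ n m hm = 0 := by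
  classical
  obtain ⟨δ, hT⟩ := h
  have h0 : (g ≫ Sigma.ι X n) ≫ Sigma.desc i = 0 := by
    rw [Category.assoc, Sigma.ι_desc, hg]
  obtain ⟨a, ha⟩ := hT.co2 (g ≫ Sigma.ι X n) h0
  have hs0 : smap φ ≫ prj X 0 = 0 := by
    refine Sigma.hom_ext _ _ fun m => ?_
    rw [ι_smap_assoc, ι_prj_ne X (Nat.succ_ne_zero m), comp_zero, comp_zero]
  have hs1 : ∀ n, smap φ ≫ prj X (n + 1) = prj X n ≫ φ n := by
    intro n
    refine Sigma.hom_ext _ _ fun m => ?_
    rw [ι_smap_assoc]
    by_cases hm : m = n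
    · subst hm
      simp
    · rw [ι_prj_ne X (by omega : m + 1 ≠ n + 1), comp_zero, ι_prj_ne_assoc X hm, zero_comp]
  have hlow : ∀ m, m < n → a ≫ prj X m = 0 := by
    intro m
    induction m with
    | zero =>
      intro hm
      have h1 := congrArg (fun g => g ≫ prj X 0) ha
      simp only [Preadditive.comp_sub, Preadditive.sub_comp, Category.comp_id,
        Category.assoc] at h1
      rw [ι_prj_ne X (by omega : n ≠ 0), comp_zero, hs0, comp_zero, sub_zero] at h1
      exact h1.symm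
    | succ m ih =>
      intro hm
      have h1 := congrArg (fun g => g ≫ prj X (m + 1)) ha
      simp only [Preadditive.comp_sub, Preadditive.sub_comp, Category.comp_id,
        Category.assoc] at h1
      rw [ι_prj_ne X (by omega : n ≠ m + 1), comp_zero, hs1, ← Category.assoc, ih (by omega),
        zero_comp, sub_zero] at h1
      exact h1.symm
  have hn : a ≫ prj X n = g := by
    have h1 := congrArg (fun g => g ≫ prj X n) ha
    simp only [Preadditive.comp_sub, Preadditive.sub_comp, Category.comp_id,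
      Category.assoc, ι_prj_self] at h1
    have h2 : a ≫ smap φ ≫ prj X n = 0 := by
      rcases Nat.eq_zero_or_pos n with h3 | h3
      · subst h3
        rw [hs0, comp_zero]
      · obtain ⟨k, rfl⟩ : ∃ k, n = k + 1 := ⟨n - 1, by omega⟩
        rw [hs1, ← Category.assoc, hlow k (by omega), zero_comp]
    rw [h2, sub_zero] at h1
    exact h1.symm
  have hup : ∀ m (hm : n ≤ m), a ≫ prj X m = g ≫ tr φ n m hm := by
    intro m hm
    induction m, hm using Nat.le_induction with
    | base => rw [tr_self, Category.comp_id, hn]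
    | succ m hm ih =>
      have h1 := congrArg (fun g => g ≫ prj X (m + 1)) ha
      simp only [Preadditive.comp_sub, Preadditive.sub_comp, Category.comp_id,
        Category.assoc] at h1
      rw [ι_prj_ne X (by omega : n ≠ m + 1), comp_zero, hs1, ← Category.assoc, ih,
        eq_comm, sub_eq_zero] at h1
      rw [h1, tr_succ φ n m hm, Category.assoc]
  obtain ⟨s, b, hb⟩ := IsCpt.exists_sum hc a
  refine ⟨max n (s.sup id + 1), le_max_left _ _, ?_⟩
  rw [← hup, hb, Preadditive.sum_comp]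
  refine Finset.sum_eq_zero fun j hj => ?_
  have hj' : j ≤ s.sup id := Finset.le_sup (f := id) hj
  have hj2 : s.sup id + 1 ≤ max n (s.sup id + 1) := le_max_right _ _
  rw [Category.assoc, ι_prj_ne X (by omega), comp_zero]

/-- If `1 - s` has a retraction then maps out of the homotopy colimit are determined by
their restrictions. -/
lemma hom_ext_of_retraction (h : IsHocolim X φ L i) (r : ∐ X ⟶ ∐ X)
    (hr : (𝟙 (∐ X) - smap φ) ≫ r = 𝟙 _) {Z : C} {f g : L ⟶ Z} (hfg : ∀ n, i n ≫ f = i n ≫ g) :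
    f = g := by
  obtain ⟨δ, hT⟩ := h
  have h1 : Mono (𝟙 (∐ X) - smap φ) := by
    refine ⟨fun a b hab => ?_⟩
    have := congrArg (fun x => x ≫ r) hab
    simp only [Category.assoc, hr, Category.comp_id] at this
    exact this
  have h3 : Epi (Sigma.desc i) := by
    exact Triangle.epi₂ _ hT (Triangle.mor₃_eq_zero_of_mono₁ _ hT h1)
  rw [← cancel_epi (Sigma.desc i)]
  refine Sigma.hom_ext _ _ fun n => ?_
  rw [Sigma.ι_desc_assoc, Sigma.ι_desc_assoc, hfg n]

/-- A sequence of zero maps has zero homotopy colimit. -/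
lemma isZero (h : IsHocolim X φ L i) (h0 : ∀ n, φ n = 0) : IsZero L := by
  have hs : smap φ = 0 := by
    refine Sigma.hom_ext _ _ fun n => ?_
    rw [ι_smap, h0 n, zero_comp, comp_zero]
  have hr : (𝟙 (∐ X) - smap φ) ≫ 𝟙 _ = 𝟙 _ := by
    rw [hs, sub_zero, Category.comp_id]
  rw [IsZero.iff_id_eq_zero]
  refine h.hom_ext_of_retraction _ hr fun n => ?_
  rw [← h.comp_i n, h0 n, zero_comp, zero_comp, zero_comp]

/-- If all the maps are isomorphisms then so are the structure maps. -/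
lemma isIso_i (h : IsHocolim X φ L i) [h0 : ∀ n, IsIso (φ n)] : IsIso (i 0) := by
  let ρ : ∀ n, X n ⟶ ∐ X := fun n =>
    Nat.rec (motive := fun n => X n ⟶ ∐ X) 0
      (fun n r => inv (φ n) ≫ (r - Sigma.ι X n)) n
  have hρ : ∀ n, ρ (n + 1) = inv (φ n) ≫ (ρ n - Sigma.ι X n) := fun n => rfl
  have hr : (𝟙 (∐ X) - smap φ) ≫ Sigma.desc ρ = 𝟙 _ := by
    refine Sigma.hom_ext _ _ fun n => ?_
    rw [Preadditive.sub_comp, Preadditive.comp_sub, Category.id_comp, ι_smap_assoc,
      Sigma.ι_desc, Sigma.ι_desc, hρ, IsIso.hom_inv_id_assoc, Category.comp_id]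
    abel
  let p : ∀ n, X n ⟶ X 0 := fun n =>
    Nat.rec (motive := fun n => X n ⟶ X 0) (𝟙 _) (fun n r => inv (φ n) ≫ r) n
  have hp : ∀ n, p (n + 1) = inv (φ n) ≫ p n := fun n => rfl
  obtain ⟨q, hq⟩ := h.exists_desc p (fun n => by rw [hp, IsIso.hom_inv_id_assoc])
  have hpi : ∀ n, p n ≫ i 0 = i n := by
    intro n
    induction n with
    | zero => exact Category.id_comp _
    | succ n ih => rw [hp, Category.assoc, ih, ← h.comp_i n, IsIso.inv_hom_id_assoc]
  refine ⟨q, hq 0, h.hom_ext_of_retraction _ hr fun n => ?_⟩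
  rw [← Category.assoc, hq, hpi, Category.comp_id]

end IsHocolim

end hocolim

section functor

variable {C : Type 1} [Category.{0} C] [Preadditive C] [HasCoproducts.{0} C]
  [HasZeroObject C] [HasShift C ℤ] [∀ n : ℤ, (shiftFunctor C n).Additive] [Pretriangulated C]
  {D : Type 1} [Category.{0} D] [Preadditive D] [HasCoproducts.{0} D]
  [HasZeroObject D] [HasShift D ℤ] [∀ n : ℤ, (shiftFunctor D n).Additive] [Pretriangulated D]
  (F : C ⥤ D) [F.CommShift ℤ] [F.IsTriangulated]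

lemma Tri.map {X Y Z : C} {f : X ⟶ Y} {g : Y ⟶ Z} {h : Z ⟶ X⟦(1 : ℤ)⟧} (hT : Tri f g h) :
    Tri (F.map f) (F.map g) (F.map h ≫ (F.commShiftIso (1 : ℤ)).hom.app X) :=
  F.map_distinguished _ hT

lemma ι_iso_inv {J : Type} (X : J → C) [PreservesColimitsOfShape (Discrete J) F] (j : J) :
    Sigma.ι (fun j => F.obj (X j)) j ≫ (PreservesCoproduct.iso F X).inv = F.map (Sigma.ι X j) := by
  rw [PreservesCoproduct.inv_hom]
  exact ι_comp_sigmaComparison F X j

lemma map_ι_iso_hom {J : Type} (X : J → C) [PreservesColimitsOfShape (Discrete J) F] (j : J) :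
    F.map (Sigma.ι X j) ≫ (PreservesCoproduct.iso F X).hom = Sigma.ι (fun j => F.obj (X j)) j := by
  rw [← ι_iso_inv F X j, Category.assoc, Iso.inv_hom_id, Category.comp_id]

/-- Exact functors which preserve countable coproducts preserve homotopy colimits. -/
lemma IsHocolim.map [PreservesColimitsOfShape (Discrete ℕ) F] {X : ℕ → C}
    {φ : ∀ n, X n ⟶ X (n + 1)} {L : C} {i : ∀ n, X n ⟶ L} (h : IsHocolim X φ L i) :
    IsHocolim (fun n => F.obj (X n)) (fun n => F.map (φ n)) (F.obj L) (fun n => F.map (i n)) := by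
  obtain ⟨δ, hT⟩ := h
  let e := PreservesCoproduct.iso F X
  refine ⟨(F.map δ ≫ (F.commShiftIso (1 : ℤ)).hom.app (∐ X)) ≫ e.hom⟦(1 : ℤ)⟧', ?_⟩
  refine (hT.map F).of_iso e e (Iso.refl _) ?_ ?_ ?_
  · rw [← Iso.inv_comp_eq]
    refine Sigma.hom_ext _ _ fun n => ?_
    have h1 : Sigma.ι (fun n => F.obj (X n)) n ≫ e.inv = F.map (Sigma.ι X n) := ι_iso_inv F X n
    have h2 : ∀ n, F.map (Sigma.ι X n) ≫ e.hom = Sigma.ι (fun n => F.obj (X n)) n :=
      map_ι_iso_hom F X
    rw [← Category.assoc, h1, F.map_sub, F.map_id, Preadditive.sub_comp, Preadditive.comp_sub,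
      Category.id_comp, h2, ← Category.assoc, ← F.map_comp, ι_smap, F.map_comp, Category.assoc,
      h2, Preadditive.comp_sub, Category.comp_id, ι_smap]
  · rw [← Iso.inv_comp_eq]
    refine Sigma.hom_ext _ _ fun n => ?_
    have h1 : Sigma.ι (fun n => F.obj (X n)) n ≫ e.inv = F.map (Sigma.ι X n) := ι_iso_inv F X n
    rw [← Category.assoc, h1, Iso.refl_hom, Category.comp_id, ← F.map_comp, Sigma.ι_desc,
      Sigma.ι_desc]
  · rw [Iso.refl_hom, Category.id_comp]

end functor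

end Pool.Agent.H95.TT
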