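import Pool.Agent.H95.TT.Brown

set_option linter.unusedSectionVars false

/-!
Compact objects of a compactly generated triangulated category are retracts of finite cell
objects (Neeman).
-/

open CategoryTheory CategoryTheory.Limits CategoryTheory.Pretriangulated
open scoped ZeroObject

namespace Pool.Agent.H95.TT

open Pool.Agent.H75.TT

section fincell

variable {C : Type 1} [Category.{0} C] [Preadditive C]
  [HasZeroObject C] [HasShift C ℤ] [∀ n : ℤ, (shiftFunctor C n).Additive] [Pretriangulated C]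

/-- Finite cell objects: built from zero by attaching one shift of a `G j` at a time. -/
inductive FinCell {J : Type} (G : J → C) : C → Prop
  | zero {X : C} (h : IsZero X) : FinCell G X
  | cell {X Y : C} (j : J) (n : ℤ) (f : (G j)⟦n⟧ ⟶ X) (g : X ⟶ Y)
      (h : Y ⟶ (G j)⟦n⟧⟦(1 : ℤ)⟧) (hT : Triangle.mk f g h ∈ distTriang C)
      (hX : FinCell G X) : FinCell G Y

variable {J : Type} {G : J → C}

lemma FinCell.of_iso {X Y : C} (hX : FinCell G X) (e : X ≅ Y) : FinCell G Y := by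
  cases hX with
  | zero h => exact FinCell.zero (h.of_iso e.symm)
  | cell j n f g h hT hX =>
    refine FinCell.cell j n f (g ≫ e.hom) (e.inv ≫ h) ?_ hX
    exact Tri.of_iso (f := f) (g := g) (h := h) hT (Iso.refl _) (Iso.refl _) e (by simp)
      (by simp) (by simp)

/-- A cell attached along a map from an object isomorphic to a shift of a generator. -/
lemma FinCell.cell' {X Y A : C} {j : J} {n : ℤ} (e : (G j)⟦n⟧ ≅ A) {f : A ⟶ X} {g : X ⟶ Y}
    {h : Y ⟶ A⟦(1 : ℤ)⟧} (hT : Tri f g h) (hX : FinCell G X) : FinCell G Y := by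
  refine FinCell.cell j n (e.hom ≫ f) g (h ≫ e.inv⟦(1 : ℤ)⟧') ?_ hX
  refine Tri.of_iso (f := f) (g := g) (h := h) hT e.symm (Iso.refl _) (Iso.refl _) (by simp)
    (by simp) (by simp)

/-- Shifted triangles, up to signs. -/
lemma Tri.shift {X Y Z : C} {f : X ⟶ Y} {g : Y ⟶ Z} {h : Z ⟶ X⟦(1 : ℤ)⟧} (hT : Tri f g h)
    (n : ℤ) : ∃ (f' : X⟦n⟧ ⟶ Y⟦n⟧) (g' : Y⟦n⟧ ⟶ Z⟦n⟧) (h' : Z⟦n⟧ ⟶ X⟦n⟧⟦(1 : ℤ)⟧),
      Tri f' g' h' :=
  ⟨_, _, _, Triangle.shift_distinguished _ hT n⟩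

lemma FinCell.shift {X : C} (hX : FinCell G X) (n : ℤ) : FinCell G (X⟦n⟧) := by
  induction hX with
  | zero h => exact FinCell.zero ((shiftFunctor C n).map_isZero h)
  | @cell X Y j m f g h hT hX ih =>
    obtain ⟨f', g', h', hT'⟩ := Tri.shift (f := f) (g := g) (h := h) hT n
    exact FinCell.cell' ((shiftFunctorAdd' C m n (m + n) rfl).app (G j)) hT' ih

variable [IsTriangulated C]

/-- Cones of maps between finite cell objects are finite cell objects. -/
lemma FinCell.cone {X Y Z : C} {f : X ⟶ Y} {g : Y ⟶ Z} {h : Z ⟶ X⟦(1 : ℤ)⟧} (hT : Tri f g h)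
    (hX : FinCell G X) (hY : FinCell G Y) : FinCell G Z := by
  induction hX generalizing Y Z with
  | zero h0 =>
    have : IsIso g := hT.isZero1_iff.1 h0
    exact hY.of_iso (asIso g)
  | @cell A X j m a b c hA hX ih =>
    -- octahedron for `A ⟶ X ⟶ Y`
    obtain ⟨Z', g', h', hT'⟩ := exists_tri3 (b ≫ f)
    have hZ' : FinCell G Z' := ih hT' hY
    have h1 : Tri b c (-a⟦(1 : ℤ)⟧') := Tri.rot (f := a) (g := b) (h := c) hA
    have oct := Triangulated.someOctahedron rfl h1 hT hT'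
    have hmem : Tri oct.m₁ oct.m₃ _ := oct.mem
    exact FinCell.cell' ((shiftFunctorAdd' C m 1 (m + 1) rfl).app (G j)) hmem hZ'

lemma FinCell.obj1 {X Y Z : C} {f : X ⟶ Y} {g : Y ⟶ Z} {h : Z ⟶ X⟦(1 : ℤ)⟧} (hT : Tri f g h)
    (hY : FinCell G Y) (hZ : FinCell G Z) : FinCell G X := by
  have h1 : FinCell G (X⟦(1 : ℤ)⟧) := FinCell.cone hT.rot hY hZ
  exact (h1.shift (-1)).of_iso (shiftShiftNeg X 1)

lemma FinCell.obj2 {X Y Z : C} {f : X ⟶ Y} {g : Y ⟶ Z} {h : Z ⟶ X⟦(1 : ℤ)⟧} (hT : Tri f g h)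
    (hX : FinCell G X) (hZ : FinCell G Z) : FinCell G Y := by
  have h1 : FinCell G (Y⟦(1 : ℤ)⟧) := FinCell.cone hT.rot.rot hZ (hX.shift 1)
  exact (h1.shift (-1)).of_iso (shiftShiftNeg Y 1)

lemma FinCell.gen (j : J) : FinCell G (G j) := by
  have h1 : Tri (0 : G j ⟶ 0) 0 (𝟙 ((G j)⟦(1 : ℤ)⟧)) := contractible_distinguished₂ (G j)
  have h2 : FinCell G ((G j)⟦(1 : ℤ)⟧) :=
    FinCell.cell' ((shiftFunctorZero C ℤ).app (G j)) h1 (FinCell.zero (isZero_zero C))
  exact (h2.shift (-1)).of_iso (shiftShiftNeg (G j) 1)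

lemma FinCell.biprod {X Y : C} (hX : FinCell G X) (hY : FinCell G Y) : FinCell G (X ⊞ Y) :=
  FinCell.obj2 (f := biprod.inl) (g := biprod.snd) (h := 0)
    (binaryBiproductTriangle_distinguished X Y) hX hY

end fincell

section compact

variable {C : Type 1} [Category.{0} C] [Preadditive C] [HasCoproducts.{0} C]
  [HasZeroObject C] [HasShift C ℤ] [∀ n : ℤ, (shiftFunctor C n).Additive] [Pretriangulated C]
  {J : Type} {G : J → C}

lemma FinCell.isCpt (hG : ∀ j, IsCpt (G j)) {X : C} (hX : FinCell G X) : IsCpt X := by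
  induction hX with
  | zero h => exact isCpt_of_isZero h
  | @cell X Y j n f g h hT hX ih => exact isCpt_obj₃ hT (isCpt_shift (hG j) n) ih

variable (G) in
/-- Maps which factor through a finite cell object. -/
def Fac {s X : C} (u : s ⟶ X) : Prop :=
  ∃ (E : C) (a : s ⟶ E) (b : E ⟶ X), FinCell G E ∧ a ≫ b = u

lemma Fac.zero {s X : C} : Fac G (0 : s ⟶ X) :=
  ⟨0, 0, 0, FinCell.zero (isZero_zero C), by simp⟩

lemma Fac.comp {s X Y : C} {u : s ⟶ X} (hu : Fac G u) (v : X ⟶ Y) : Fac G (u ≫ v) := by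
  obtain ⟨E, a, b, hE, rfl⟩ := hu
  exact ⟨E, a, b ≫ v, hE, by simp⟩

lemma Fac.of_finCell {s E X : C} (hE : FinCell G E) (a : s ⟶ E) (b : E ⟶ X) : Fac G (a ≫ b) :=
  ⟨E, a, b, hE, rfl⟩

variable [IsTriangulated C]

lemma Fac.add {s X : C} {u v : s ⟶ X} (hu : Fac G u) (hv : Fac G v) : Fac G (u + v) := by
  obtain ⟨E, a, b, hE, rfl⟩ := hu
  obtain ⟨E', a', b', hE', rfl⟩ := hv
  refine ⟨E ⊞ E', biprod.lift a a', biprod.desc b b', hE.biprod hE', ?_⟩
  rw [biprod.lift_desc]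

variable (G) in
/-- Objects such that all maps from compact objects factor through finite cell objects. -/
def Good (X : C) : Prop := ∀ (s : C), IsCpt s → ∀ u : s ⟶ X, Fac G u

lemma Good.of_iso {X Y : C} (hX : Good G X) (e : X ≅ Y) : Good G Y := by
  intro s hs u
  have h := (hX s hs (u ≫ e.inv)).comp e.hom
  simpa using h

lemma good_of_isZero {X : C} (h : IsZero X) : Good G X := by
  intro s _ u
  rw [h.eq_of_tgt u 0]
  exact Fac.zero

lemma good_sigma {K : Type} (A : K → C) (hA : ∀ k, FinCell G (A k)) : Good G (∐ A) := by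
  intro s hs u
  refine FS_induction (p := fun u => Fac G u) Fac.zero ?_ (fun _ _ h h' => h.add h')
    (IsCpt.mem hs u)
  intro k f
  exact Fac.of_finCell (hA k) f _

/-- Extensions of good objects are good. -/
lemma Good.obj2 {X Y Z : C} {f : X ⟶ Y} {g : Y ⟶ Z} {h : Z ⟶ X⟦(1 : ℤ)⟧} (hT : Tri f g h)
    (hG : ∀ j, IsCpt (G j)) (hX : Good G X) (hZ : Good G Z) : Good G Y := by
  intro s hs u
  obtain ⟨E, p, q, hE, hpq⟩ := hZ s hs (u ≫ g)
  obtain ⟨t, a, r, hT1⟩ := exists_tri1 p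
  have ht : IsCpt t := hT1.isCpt1 hs (hE.isCpt hG)
  obtain ⟨m, hm1, hm2⟩ := hT1.fill1 hT u q hpq
  obtain ⟨E0, b, c, hE0, hbc⟩ := hX t ht m
  obtain ⟨E', f', g', hT2⟩ := exists_tri2 (r ≫ b⟦(1 : ℤ)⟧')
  have hE' : FinCell G E' := FinCell.obj2 hT2 hE0 hE
  obtain ⟨w, hw1, hw2⟩ := hT2.fill2 hT c q (by
    rw [Category.assoc, ← Functor.map_comp, hbc, hm2])
  obtain ⟨v, hv1, hv2⟩ := hT1.fill2 hT2 b (𝟙 E) (by rw [Category.id_comp])
  have h1 : (u - v ≫ w) ≫ g = 0 := by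
    rw [Preadditive.sub_comp, Category.assoc, ← hw2, ← Category.assoc, ← hv2, Category.comp_id,
      hpq, sub_self]
  obtain ⟨d, hd⟩ := hT.co2 _ h1
  have h2 : u = v ≫ w + d ≫ f := by rw [← hd]; abel
  rw [h2]
  exact (Fac.of_finCell hE' v w).add ((hX s hs d).comp f)

/-- (B4) Compact objects are retracts of finite cell objects. -/
theorem exists_retract_finCell (hG : ∀ j, IsCpt (G j)) (hgen : Gens G) {c : C}
    (hc : IsCpt c) : ∃ E : C, FinCell G E ∧ Nonempty (Retract c E) := by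
  have hcell : ∀ Q, CellSum G Q → Good G Q := by
    rintro Q ⟨K, j, n, rfl⟩
    exact good_sigma _ fun k => (FinCell.gen (j k)).shift (n k)
  have hcell1 : ∀ Q, CellSum G Q → Good G (Q⟦(1 : ℤ)⟧) := by
    rintro Q ⟨K, j, n, rfl⟩
    refine (good_sigma (fun k => (G (j k))⟦n k⟧⟦(1 : ℤ)⟧)
      fun k => ((FinCell.gen (j k)).shift (n k)).shift 1).of_iso ?_
    exact (PreservesCoproduct.iso (shiftFunctor C (1 : ℤ)) fun k => (G (j k))⟦n k⟧).symm
  obtain ⟨X, φ, L, i, j, z, hL, hP, -, hs, hi⟩ :=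
    brown_tower (𝟭 C) G hG (Z := c) (t0 := (0 : C)) 0 (Good G)
      (fun Q hQ => by
        refine Good.obj2 (f := (biprod.inl : (0 : C) ⟶ 0 ⊞ Q)) (g := biprod.snd) (h := 0)
          (binaryBiproductTriangle_distinguished 0 Q) hG (good_of_isZero (isZero_zero C))
          (hcell Q hQ))
      (fun {Q X Y} f g h hT hQ hX => Good.obj2 hT.rot hG hX (hcell1 Q hQ))
  have hz : IsIso (show L ⟶ c from z) := isIso_of_bijective G hgen _ (fun k n a ha => hi k n a ha)
    (fun k n b => hs k n b)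
  obtain ⟨m, a, ha⟩ := hL.exists_factor hc (inv (show L ⟶ c from z))
  obtain ⟨E, p, q, hE, hpq⟩ := hP m c hc a
  refine ⟨E, hE, ⟨⟨p, q ≫ i m ≫ (show L ⟶ c from z), ?_⟩⟩⟩
  rw [← Category.assoc, hpq, ← Category.assoc, ha, IsIso.inv_hom_id]

end compact

end Pool.Agent.H95.TT
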