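import Pool.Agent.H95.TT.Split

set_option linter.unusedSectionVars false

/-!
Brown representability: exact coproduct-preserving functors out of a compactly generated
triangulated category have right adjoints.
-/

open CategoryTheory CategoryTheory.Limits CategoryTheory.Pretriangulated
open scoped ZeroObject

namespace Pool.Agent.H95.TT

open Pool.Agent.H75.TT

section

variable {C : Type 1} [Category.{0} C] [Preadditive C] [HasCoproducts.{0} C]
  [HasZeroObject C] [HasShift C ℤ] [∀ n : ℤ, (shiftFunctor C n).Additive] [Pretriangulated C]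

/-- `G` generates. -/
def Gens {J : Type} (G : J → C) : Prop :=
  ∀ Y : C, (∀ (j : J) (n : ℤ) (f : (G j)⟦n⟧ ⟶ Y), f = 0) → IsZero Y

/-- Small coproducts of shifts of the `G j`. -/
def CellSum {J : Type} (G : J → C) (Q : C) : Prop :=
  ∃ (K : Type) (j : K → J) (n : K → ℤ), Q = ∐ fun k => (G (j k))⟦n k⟧

end

section functor

variable {C : Type 1} [Category.{0} C] [Preadditive C] [HasCoproducts.{0} C]
  [HasZeroObject C] [HasShift C ℤ] [∀ n : ℤ, (shiftFunctor C n).Additive] [Pretriangulated C]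
  {D : Type 1} [Category.{0} D] [Preadditive D] [HasCoproducts.{0} D]
  [HasZeroObject D] [HasShift D ℤ] [∀ n : ℤ, (shiftFunctor D n).Additive] [Pretriangulated D]
  (F : C ⥤ D) [F.CommShift ℤ] [F.IsTriangulated]
  [hFc : ∀ J : Type, PreservesColimitsOfShape (Discrete J) F]

lemma hom_ext_map_sigma {K : Type} (A : K → C) {Z : D} {x y : F.obj (∐ A) ⟶ Z}
    (h : ∀ k, F.map (Sigma.ι A k) ≫ x = F.map (Sigma.ι A k) ≫ y) : x = y := by
  rw [← cancel_epi (PreservesCoproduct.iso F A).inv]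
  refine Sigma.hom_ext _ _ fun k => ?_
  rw [← Category.assoc, ← Category.assoc, ι_iso_inv, h]

lemma exists_map_desc {K : Type} (A : K → C) {Z : D} (x : ∀ k, F.obj (A k) ⟶ Z) :
    ∃ y : F.obj (∐ A) ⟶ Z, ∀ k, F.map (Sigma.ι A k) ≫ y = x k := by
  refine ⟨(PreservesCoproduct.iso F A).hom ≫ Sigma.desc x, fun k => ?_⟩
  rw [← Category.assoc, map_ι_iso_hom, Sigma.ι_desc]

/-- Attach cells to kill the kernel of `a ↦ F.map a ≫ z`. -/
lemma kill {J : Type} (G : J → C) {Z : D} (s : Σ c : C, (F.obj c ⟶ Z)) :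
    ∃ (s' : Σ c : C, (F.obj c ⟶ Z)) (g : s.1 ⟶ s'.1),
      F.map g ≫ s'.2 = s.2 ∧
      (∀ (j : J) (n : ℤ) (a : (G j)⟦n⟧ ⟶ s.1), F.map a ≫ s.2 = 0 → a ≫ g = 0) ∧
      ∃ (Q : C) (f : Q ⟶ s.1) (h : s'.1 ⟶ Q⟦(1 : ℤ)⟧), CellSum G Q ∧ Tri f g h := by
  obtain ⟨c, z⟩ := s
  let K : Type := {t : Σ (j : J) (n : ℤ), ((G j)⟦n⟧ ⟶ c) // F.map t.2.2 ≫ z = 0}
  let A : K → C := fun k => (G k.1.1)⟦k.1.2.1⟧
  let f : ∐ A ⟶ c := Sigma.desc (fun k => k.1.2.2)
  obtain ⟨Y, g, h, hT⟩ := exists_tri3 f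
  have h0 : F.map f ≫ z = 0 := by
    refine hom_ext_map_sigma F A fun k => ?_
    rw [← Category.assoc, ← F.map_comp, Sigma.ι_desc, k.2, comp_zero]
  obtain ⟨z', hz'⟩ := (hT.map F).yo2 z h0
  refine ⟨⟨Y, z'⟩, g, hz'.symm, ?_, ∐ A, f, h, ⟨K, fun k => k.1.1, fun k => k.1.2.1, rfl⟩, hT⟩
  intro j n a ha
  have h1 : a = Sigma.ι A (⟨⟨j, n, a⟩, ha⟩ : K) ≫ f := by
    rw [Sigma.ι_desc]
  rw [h1, Category.assoc, hT.c12, comp_zero]

/-- The tower of cell attachments. -/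
theorem brown_tower {J : Type} (G : J → C) (hG : ∀ j, IsCpt (G j)) {Z : D} {t0 : C}
    (z0 : F.obj t0 ⟶ Z) (P : C → Prop) (h0 : ∀ Q, CellSum G Q → P (t0 ⊞ Q))
    (h1 : ∀ {Q X Y : C} (f : Q ⟶ X) (g : X ⟶ Y) (h : Y ⟶ Q⟦(1 : ℤ)⟧), Tri f g h →
      CellSum G Q → P X → P Y) :
    ∃ (X : ℕ → C) (φ : ∀ n, X n ⟶ X (n + 1)) (L : C) (i : ∀ n, X n ⟶ L) (j : t0 ⟶ X 0)
      (z : F.obj L ⟶ Z), IsHocolim X φ L i ∧ (∀ n, P (X n)) ∧ F.map (j ≫ i 0) ≫ z = z0 ∧
      (∀ (k : J) (n : ℤ) (b : F.obj ((G k)⟦n⟧) ⟶ Z),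
        ∃ a : (G k)⟦n⟧ ⟶ L, F.map a ≫ z = b) ∧
      (∀ (k : J) (n : ℤ) (a : (G k)⟦n⟧ ⟶ L), F.map a ≫ z = 0 → a = 0) := by
  -- the first stage
  let K : Type := Σ (j : J) (n : ℤ), (F.obj ((G j)⟦n⟧) ⟶ Z)
  let A : K → C := fun k => (G k.1)⟦k.2.1⟧
  obtain ⟨y, hy⟩ := exists_map_desc F A (Z := Z) (fun k => k.2.2)
  let s0 : Σ c : C, (F.obj c ⟶ Z) :=
    ⟨t0 ⊞ ∐ A, F.map biprod.fst ≫ z0 + F.map biprod.snd ≫ y⟩
  have hs0 : P s0.1 := h0 _ ⟨K, fun k => k.1, fun k => k.2.1, rfl⟩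
  choose nx g hg1 hg2 Q f h hQ hT using fun s : Σ c : C, (F.obj c ⟶ Z) => kill F G s
  let S : ℕ → Σ c : C, (F.obj c ⟶ Z) := fun n => Nat.rec s0 (fun _ s => nx s) n
  let X : ℕ → C := fun n => (S n).1
  let φ : ∀ n, X n ⟶ X (n + 1) := fun n => g (S n)
  obtain ⟨L, i, hL⟩ := exists_isHocolim X φ
  obtain ⟨z, hz⟩ := (hL.map F).exists_desc (fun n => (S n).2) (fun n => hg1 (S n))
  have hP : ∀ n, P (X n) := by
    intro n
    induction n with
    | zero => exact hs0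
    | succ n ih => exact h1 _ _ _ (hT (S n)) (hQ (S n)) ih
  refine ⟨X, φ, L, i, biprod.inl, z, hL, hP, ?_, ?_, ?_⟩
  · rw [F.map_comp, Category.assoc]
    have h2 : F.map (i 0) ≫ z = F.map biprod.fst ≫ z0 + F.map biprod.snd ≫ y := hz 0
    rw [h2, Preadditive.comp_add, ← Category.assoc, ← Category.assoc, ← F.map_comp,
      ← F.map_comp, biprod.inl_fst, biprod.inl_snd, F.map_id, Category.id_comp, F.map_zero,
      zero_comp, add_zero]
  · intro k n b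
    refine ⟨(Sigma.ι A (⟨k, n, b⟩ : K) ≫ biprod.inr) ≫ i 0, ?_⟩
    have h2 : F.map (i 0) ≫ z = F.map biprod.fst ≫ z0 + F.map biprod.snd ≫ y := hz 0
    rw [F.map_comp, Category.assoc, h2, Preadditive.comp_add, ← Category.assoc, ← Category.assoc,
      ← F.map_comp, ← F.map_comp, Category.assoc, Category.assoc, biprod.inr_fst,
      biprod.inr_snd, comp_zero, F.map_zero, zero_comp, zero_add, Category.comp_id, hy]
  · intro k n a ha
    obtain ⟨m, b, rfl⟩ := hL.exists_factor (isCpt_shift (hG k) n) a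
    have h2 : F.map b ≫ (S m).2 = 0 := by
      rw [← hz m, ← Category.assoc, ← F.map_comp, ha]
    have h3 := hg2 (S m) k n b h2
    rw [← hL.comp_i m, ← Category.assoc]
    change (b ≫ g (S m)) ≫ i (m + 1) = 0
    rw [h3, zero_comp]

/-- (B2) -/
theorem brown_step {J : Type} (G : J → C) (hG : ∀ j, IsCpt (G j)) {Z : D} {t0 : C}
    (z0 : F.obj t0 ⟶ Z) :
    ∃ (c : C) (j : t0 ⟶ c) (z : F.obj c ⟶ Z), F.map j ≫ z = z0 ∧
      (∀ (k : J) (n : ℤ) (b : F.obj ((G k)⟦n⟧) ⟶ Z),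
        ∃ a : (G k)⟦n⟧ ⟶ c, F.map a ≫ z = b) ∧
      (∀ (k : J) (n : ℤ) (a : (G k)⟦n⟧ ⟶ c), F.map a ≫ z = 0 → a = 0) := by
  obtain ⟨X, φ, L, i, j, z, -, -, h1, h2, h3⟩ :=
    brown_tower F G hG z0 (fun _ => True) (fun _ _ => trivial) (fun _ _ _ _ _ _ => trivial)
  exact ⟨L, j ≫ i 0, z, h1, h2, h3⟩

/-- (B2), bijectivity form. -/
theorem brown_step_bijective {J : Type} (G : J → C) (hG : ∀ j, IsCpt (G j)) {Z : D} {t0 : C}
    (z0 : F.obj t0 ⟶ Z) :
    ∃ (c : C) (j : t0 ⟶ c) (z : F.obj c ⟶ Z), F.map j ≫ z = z0 ∧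
      ∀ (k : J) (n : ℤ), Function.Bijective fun a : (G k)⟦n⟧ ⟶ c => F.map a ≫ z := by
  obtain ⟨c, j, z, h1, h2, h3⟩ := brown_step F G hG z0
  refine ⟨c, j, z, h1, fun k n => ⟨fun a b hab => ?_, h2 k n⟩⟩
  rw [← sub_eq_zero]
  refine h3 k n _ ?_
  rw [F.map_sub, Preadditive.sub_comp]
  exact sub_eq_zero.2 hab

/-- Universality on the generators implies universality. -/
lemma brown_unique_aux {J : Type} (G : J → C) (hG : ∀ j, IsCpt (G j)) (hgen : Gens G)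
    {Z : D} {c : C} (z : F.obj c ⟶ Z)
    (hs : ∀ (k : J) (n : ℤ) (b : F.obj ((G k)⟦n⟧) ⟶ Z),
        ∃ a : (G k)⟦n⟧ ⟶ c, F.map a ≫ z = b)
    (hi : ∀ (k : J) (n : ℤ) (a : (G k)⟦n⟧ ⟶ c), F.map a ≫ z = 0 → a = 0)
    {c' : C} (u : c ⟶ c') (z' : F.obj c' ⟶ Z) (hu : F.map u ≫ z' = z) :
    ∃ (c'' : C) (v : c' ⟶ c'') (z'' : F.obj c'' ⟶ Z), F.map v ≫ z'' = z' ∧ IsIso (u ≫ v) := by
  obtain ⟨c'', v, z'', h1, h2, h3⟩ := brown_step F G hG z'
  refine ⟨c'', v, z'', h1, isIso_of_bijective G hgen _ ?_ ?_⟩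
  · intro j n a ha
    refine hi j n a ?_
    rw [← hu, ← h1, ← Category.assoc (F.map u), ← F.map_comp, ← Category.assoc, ← F.map_comp,
      ha, F.map_zero, zero_comp]
  · intro j n b
    obtain ⟨a, ha⟩ := hs j n (F.map b ≫ z'')
    refine ⟨a, ?_⟩
    rw [← sub_eq_zero]
    refine h3 j n _ ?_
    rw [F.map_sub, Preadditive.sub_comp, sub_eq_zero, ← ha, ← hu, ← h1, F.map_comp, F.map_comp,
      Category.assoc, Category.assoc]

theorem exists_isTerminal {J : Type} (G : J → C) (hG : ∀ j, IsCpt (G j)) (hgen : Gens G)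
    (Z : D) : ∃ (c : C) (z : F.obj c ⟶ Z), ∀ (t : C) (y : F.obj t ⟶ Z),
      ∃! a : t ⟶ c, F.map a ≫ z = y := by
  obtain ⟨c, -, z, -, hs, hi⟩ := brown_step F G hG (Z := Z) (t0 := (0 : C)) 0
  refine ⟨c, z, fun t y => ?_⟩
  have hinj : ∀ a : t ⟶ c, F.map a ≫ z = 0 → a = 0 := by
    intro a ha
    obtain ⟨c', u, h, hT⟩ := exists_tri3 a
    obtain ⟨z', hz'⟩ := (hT.map F).yo2 z ha
    obtain ⟨c'', v, z'', h1, h2⟩ := brown_unique_aux F G hG hgen z hs hi u z' hz'.symm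
    have h3 : a ≫ u ≫ v = 0 := by
      rw [← Category.assoc, hT.c12, zero_comp]
    rw [← cancel_mono (u ≫ v), h3, zero_comp]
  have hsurj : ∃ a : t ⟶ c, F.map a ≫ z = y := by
    let z' : F.obj (t ⊞ c) ⟶ Z := F.map biprod.fst ≫ y + F.map biprod.snd ≫ z
    have h1 : F.map biprod.inr ≫ z' = z := by
      simp only [z']
      rw [Preadditive.comp_add, ← Category.assoc, ← Category.assoc, ← F.map_comp,
        ← F.map_comp, biprod.inr_fst, biprod.inr_snd, F.map_id, Category.id_comp, F.map_zero,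
        zero_comp, zero_add]
    have h2 : F.map biprod.inl ≫ z' = y := by
      simp only [z']
      rw [Preadditive.comp_add, ← Category.assoc, ← Category.assoc, ← F.map_comp,
        ← F.map_comp, biprod.inl_fst, biprod.inl_snd, F.map_id, Category.id_comp, F.map_zero,
        zero_comp, add_zero]
    obtain ⟨c'', v, z'', h3, h4⟩ := brown_unique_aux F G hG hgen z hs hi biprod.inr z' h1
    refine ⟨biprod.inl ≫ v ≫ inv (biprod.inr ≫ v), ?_⟩
    have h5 : F.map (inv (biprod.inr ≫ v)) ≫ z = z'' := by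
      rw [← cancel_epi (F.map (biprod.inr ≫ v)), ← Category.assoc, ← F.map_comp,
        IsIso.hom_inv_id, F.map_id, Category.id_comp, F.map_comp, Category.assoc, h3, h1]
    rw [F.map_comp, F.map_comp, Category.assoc, Category.assoc, h5, h3, h2]
  obtain ⟨a, ha⟩ := hsurj
  refine ⟨a, ha, fun b hb => ?_⟩
  rw [← sub_eq_zero]
  refine hinj _ ?_
  rw [F.map_sub, Preadditive.sub_comp, ha]
  exact sub_eq_zero.2 hb

/-- (B3) An exact coproduct-preserving functor out of a compactly generated triangulated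
category has a right adjoint. -/
theorem isLeftAdjoint_of_exact {J : Type} (G : J → C) (hG : ∀ j, IsCpt (G j))
    (hgen : Gens G) : F.IsLeftAdjoint := by
  have : ∀ A, HasTerminal (CostructuredArrow F A) := by
    intro A
    obtain ⟨c, z, h⟩ := exists_isTerminal F G hG hgen A
    choose u hu huu using h
    refine IsTerminal.hasTerminal (X := CostructuredArrow.mk z) ?_
    refine IsTerminal.ofUniqueHom (fun Y => CostructuredArrow.homMk (u Y.left Y.hom)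
      (hu Y.left Y.hom)) ?_
    intro Y m
    ext
    exact huu Y.left Y.hom m.left (CostructuredArrow.w m)
  exact isLeftAdjoint_of_costructuredArrowTerminals F

end functor

end Pool.Agent.H95.TT
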