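import Pool.Agent.H75.TT.Defs

set_option linter.unusedSectionVars false

/-!
Compact objects: basic closure properties.
-/

open CategoryTheory CategoryTheory.Limits CategoryTheory.Pretriangulated
open scoped DirectSum

universe u

namespace Pool.Agent.H95.TT

open Pool.Agent.H75.TT

section API

variable {C : Type (u+1)} [Category.{u} C] [Preadditive C] [HasCoproducts.{u} C]

/-- Projection of a coproduct onto a summand. -/
noncomputable def prj {J : Type u} (Y : J → C) (j : J) : ∐ Y ⟶ Y j := by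
  classical
  exact Sigma.desc (fun k => if h : k = j then eqToHom (by rw [h]) else 0)

@[reassoc (attr := simp)]
lemma ι_prj_self {J : Type u} (Y : J → C) (j : J) : Sigma.ι Y j ≫ prj Y j = 𝟙 _ := by
  simp [prj]

@[reassoc]
lemma ι_prj_ne {J : Type u} (Y : J → C) {j k : J} (h : k ≠ j) :
    Sigma.ι Y k ≫ prj Y j = 0 := by
  simp [prj, h]

lemma sumMap_of (X : C) {J : Type u} [DecidableEq J] (Y : J → C) (j : J) (f : X ⟶ Y j) :
    sumMap X Y (DirectSum.of (fun j => (X ⟶ Y j)) j f) = f ≫ Sigma.ι Y j := by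
  classical
  have h : ‹DecidableEq J› = Classical.decEq J := Subsingleton.elim _ _
  subst h
  simp only [sumMap]
  erw [DirectSum.toAddMonoid_of]
  rfl

lemma sumMap_prj (X : C) {J : Type u} (Y : J → C) (a : ⨁ j, (X ⟶ Y j)) (j : J) :
    sumMap X Y a ≫ prj Y j = a j := by
  classical
  induction a using DirectSum.induction_on with
  | zero => simp
  | of k f =>
    rw [sumMap_of]
    by_cases h : k = j
    · subst h
      simp
    · rw [Category.assoc, ι_prj_ne Y h, comp_zero, DirectSum.of_eq_of_ne _ _ _ (Ne.symm h)]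
  | add x y hx hy => rw [map_add, Preadditive.add_comp, hx, hy, DirectSum.add_apply]

lemma sumMap_injective (X : C) {J : Type u} (Y : J → C) : Function.Injective (sumMap X Y) := by
  rw [injective_iff_map_eq_zero]
  intro a ha
  refine DFinsupp.ext fun j => ?_
  rw [← sumMap_prj X Y a j, ha, zero_comp]
  rfl

/-- Maps into a coproduct which factor through a finite subsum. -/
noncomputable def FS (X : C) {J : Type u} (Y : J → C) : AddSubgroup (X ⟶ ∐ Y) := (sumMap X Y).range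

lemma comp_ι_mem_FS {X : C} {J : Type u} {Y : J → C} {j : J} (f : X ⟶ Y j) :
    f ≫ Sigma.ι Y j ∈ FS X Y := by
  classical
  exact ⟨_, sumMap_of X Y j f⟩

lemma FS_induction {X : C} {J : Type u} {Y : J → C} {p : (X ⟶ ∐ Y) → Prop} (h0 : p 0)
    (h1 : ∀ (j : J) (f : X ⟶ Y j), p (f ≫ Sigma.ι Y j)) (h2 : ∀ f g, p f → p g → p (f + g))
    {f : X ⟶ ∐ Y} (hf : f ∈ FS X Y) : p f := by
  classical
  obtain ⟨a, rfl⟩ := hf
  induction a using DirectSum.induction_on with
  | zero => simpa using h0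
  | of k f => rw [sumMap_of]; exact h1 k f
  | add x y hx hy => rw [map_add]; exact h2 _ _ hx hy

lemma comp_mem_FS {W X : C} {J : Type u} {Y : J → C} {f : X ⟶ ∐ Y} (hf : f ∈ FS X Y)
    (g : W ⟶ X) : g ≫ f ∈ FS W Y := by
  refine FS_induction (p := fun f => g ≫ f ∈ FS W Y) ?_ ?_ ?_ hf
  · rw [comp_zero]; exact zero_mem _
  · intro j f
    rw [← Category.assoc]
    exact comp_ι_mem_FS _
  · intro f f' h h'
    rw [Preadditive.comp_add]
    exact add_mem h h'

lemma mem_FS_iff {X : C} {J : Type u} {Y : J → C} {f : X ⟶ ∐ Y} :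
    f ∈ FS X Y ↔ ∃ (s : Finset J) (a : ∀ j, X ⟶ Y j), f = ∑ j ∈ s, a j ≫ Sigma.ι Y j := by
  classical
  constructor
  · intro hf
    refine FS_induction (p := fun f => ∃ (s : Finset J) (a : ∀ j, X ⟶ Y j),
      f = ∑ j ∈ s, a j ≫ Sigma.ι Y j) ?_ ?_ ?_ hf
    · exact ⟨∅, fun _ => 0, by simp⟩
    · intro j f
      refine ⟨{j}, fun k => if h : k = j then f ≫ eqToHom (by rw [h]) else 0, ?_⟩
      simp
    · rintro f g ⟨s, a, rfl⟩ ⟨t, b, rfl⟩
      refine ⟨s ∪ t, fun j => (if j ∈ s then a j else 0) + (if j ∈ t then b j else 0), ?_⟩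
      simp only [Preadditive.add_comp, Finset.sum_add_distrib]
      congr 1
      · rw [← Finset.sum_subset Finset.subset_union_left]
        · exact Finset.sum_congr rfl fun j hj => by rw [if_pos hj]
        · intro j _ hj
          rw [if_neg hj, zero_comp]
      · rw [← Finset.sum_subset Finset.subset_union_right]
        · exact Finset.sum_congr rfl fun j hj => by rw [if_pos hj]
        · intro j _ hj
          rw [if_neg hj, zero_comp]
  · rintro ⟨s, a, rfl⟩
    exact sum_mem fun j _ => comp_ι_mem_FS _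

lemma isCpt_iff {X : C} : IsCpt X ↔ ∀ (J : Type u) (Y : J → C) (f : X ⟶ ∐ Y), f ∈ FS X Y :=
  ⟨fun h J Y f => (h J Y).2 f, fun h J Y => ⟨sumMap_injective X Y, fun f => h J Y f⟩⟩

lemma IsCpt.mem {X : C} (h : IsCpt X) {J : Type u} {Y : J → C} (f : X ⟶ ∐ Y) : f ∈ FS X Y :=
  isCpt_iff.1 h J Y f

lemma IsCpt.exists_sum {X : C} (h : IsCpt X) {J : Type u} {Y : J → C} (f : X ⟶ ∐ Y) :
    ∃ (s : Finset J) (a : ∀ j, X ⟶ Y j), f = ∑ j ∈ s, a j ≫ Sigma.ι Y j :=
  mem_FS_iff.1 (IsCpt.mem h f)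

/-- A retract of a compact object is compact. -/
lemma isCpt_of_retract' {X Y : C} (i : X ⟶ Y) (r : Y ⟶ X) (h : i ≫ r = 𝟙 X) (hY : IsCpt Y) :
    IsCpt X := by
  rw [isCpt_iff]
  intro J Z f
  have := comp_mem_FS (IsCpt.mem hY (r ≫ f)) i
  rwa [← Category.assoc, h, Category.id_comp] at this

lemma isCpt_of_retract {X Y : C} (r : Retract X Y) (hY : IsCpt Y) : IsCpt X :=
  isCpt_of_retract' r.i r.r r.retract hY

lemma isCpt_of_iso {X Y : C} (e : X ≅ Y) (hX : IsCpt X) : IsCpt Y :=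
  isCpt_of_retract' e.inv e.hom e.inv_hom_id hX

lemma isCpt_of_isZero {X : C} (h : IsZero X) : IsCpt X := by
  rw [isCpt_iff]
  intro J Y f
  rw [h.eq_of_src f 0]
  exact zero_mem _

lemma isCpt_biprod {X Y : C} [HasBinaryBiproduct X Y] (hX : IsCpt X) (hY : IsCpt Y) :
    IsCpt (X ⊞ Y) := by
  rw [isCpt_iff]
  intro J Z f
  have h : f = biprod.fst ≫ (biprod.inl ≫ f) + biprod.snd ≫ (biprod.inr ≫ f) := by
    rw [← Category.assoc, ← Category.assoc, ← Preadditive.add_comp, biprod.total,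
      Category.id_comp]
  rw [h]
  exact add_mem (comp_mem_FS (IsCpt.mem hX _) _) (comp_mem_FS (IsCpt.mem hY _) _)

lemma isCpt_sigma {ι : Type u} [Finite ι] (X : ι → C) (h : ∀ i, IsCpt (X i)) :
    IsCpt (∐ X) := by
  classical
  have := Fintype.ofFinite ι
  rw [isCpt_iff]
  intro J Z f
  have h : f = ∑ i, prj X i ≫ (Sigma.ι X i ≫ f) := by
    refine Sigma.hom_ext _ _ fun k => ?_
    rw [Preadditive.comp_sum, Finset.sum_eq_single k]
    · simp
    · intro i _ hi
      rw [ι_prj_ne_assoc X (Ne.symm hi), zero_comp]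
    · intro hk
      exact absurd (Finset.mem_univ k) hk
  rw [h]
  exact sum_mem fun i _ => comp_mem_FS (IsCpt.mem (by tauto) _) _

end API

section functor

variable {C : Type (u+1)} [Category.{u} C] [Preadditive C] [HasCoproducts.{u} C]
  {D : Type (u+1)} [Category.{u} D] [Preadditive D] [HasCoproducts.{u} D]

lemma isCpt_of_obj (F : C ⥤ D) [F.Additive] [F.Full] [F.Faithful]
    [hF : ∀ J : Type u, PreservesColimitsOfShape (Discrete J) F] {X : C}
    (h : IsCpt (F.obj X)) : IsCpt X := by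
  rw [isCpt_iff]
  intro J Y f
  obtain ⟨s, a, ha⟩ := IsCpt.exists_sum h (F.map f ≫ (PreservesCoproduct.iso F Y).hom)
  have h1 : F.map f = ∑ j ∈ s, a j ≫ F.map (Sigma.ι Y j) := by
    have h2 : F.map f = (F.map f ≫ (PreservesCoproduct.iso F Y).hom) ≫
        (PreservesCoproduct.iso F Y).inv := by
      rw [Category.assoc, Iso.hom_inv_id, Category.comp_id]
    rw [h2, ha, Preadditive.sum_comp]
    refine Finset.sum_congr rfl fun j _ => ?_
    rw [Category.assoc]
    simp
  rw [mem_FS_iff]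
  refine ⟨s, fun j => F.preimage (a j), F.map_injective ?_⟩
  rw [h1, F.map_sum]
  refine Finset.sum_congr rfl fun j _ => ?_
  rw [F.map_comp, F.map_preimage]

end functor

section tri

variable {C : Type (u+1)} [Category.{u} C] [Preadditive C] [HasCoproducts.{u} C]
  [HasZeroObject C] [HasShift C ℤ] [∀ n : ℤ, (shiftFunctor C n).Additive]

lemma isCpt_shift {X : C} (h : IsCpt X) (n : ℤ) : IsCpt (X⟦n⟧) :=
  isCpt_of_obj (shiftFunctor C (-n)) (isCpt_of_iso (shiftShiftNeg X n).symm h)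

lemma isCpt_shift_iff {X : C} (n : ℤ) : IsCpt (X⟦n⟧) ↔ IsCpt X :=
  ⟨fun h => isCpt_of_iso (shiftShiftNeg X n) (isCpt_shift h (-n)), fun h => isCpt_shift h n⟩

variable [Pretriangulated C]

lemma isCpt_obj₃ {T : Triangle C} (hT : T ∈ distTriang C) (h1 : IsCpt T.obj₁)
    (h2 : IsCpt T.obj₂) : IsCpt T.obj₃ := by
  classical
  rw [isCpt_iff]
  intro J Y f
  obtain ⟨s, a, ha⟩ := IsCpt.exists_sum h2 (T.mor₂ ≫ f)
  have h3 : ∀ j ∈ s, T.mor₁ ≫ a j = 0 := by
    intro j hj
    have h4 : T.mor₁ ≫ T.mor₂ ≫ f = 0 := by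
      rw [← Category.assoc, comp_distTriang_mor_zero₁₂ _ hT, zero_comp]
    rw [ha] at h4
    have h5 := congrArg (fun g => g ≫ prj Y j) h4
    simp only [Preadditive.comp_sum, Preadditive.sum_comp, zero_comp, Category.assoc] at h5
    rw [Finset.sum_eq_single j] at h5
    · simpa using h5
    · intro i _ hi
      rw [ι_prj_ne Y hi, comp_zero, comp_zero]
    · intro hj'
      exact absurd hj hj'
  have h6 : ∀ j : J, ∃ c : T.obj₃ ⟶ Y j, j ∈ s → a j = T.mor₂ ≫ c := by
    intro j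
    by_cases hj : j ∈ s
    · obtain ⟨c, hc⟩ := T.yoneda_exact₂ hT (a j) (h3 j hj)
      exact ⟨c, fun _ => hc⟩
    · exact ⟨0, fun h => absurd h hj⟩
  choose c hc using h6
  have h7 : T.mor₂ ≫ (f - ∑ j ∈ s, c j ≫ Sigma.ι Y j) = 0 := by
    rw [Preadditive.comp_sub, ha, Preadditive.comp_sum, sub_eq_zero]
    refine Finset.sum_congr rfl fun j hj => ?_
    rw [hc j hj, Category.assoc]
  obtain ⟨d, hd⟩ := T.yoneda_exact₃ hT _ h7
  rw [sub_eq_iff_eq_add] at hd
  rw [hd]
  exact add_mem (comp_mem_FS (IsCpt.mem (isCpt_shift h1 1) _) _)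
    (sum_mem fun j _ => comp_ι_mem_FS _)

lemma isCpt_obj₂ {T : Triangle C} (hT : T ∈ distTriang C) (h1 : IsCpt T.obj₁)
    (h3 : IsCpt T.obj₃) : IsCpt T.obj₂ :=
  isCpt_obj₃ (inv_rot_of_distTriang _ hT) (isCpt_shift h3 (-1)) h1

lemma isCpt_obj₁ {T : Triangle C} (hT : T ∈ distTriang C) (h2 : IsCpt T.obj₂)
    (h3 : IsCpt T.obj₃) : IsCpt T.obj₁ :=
  (isCpt_shift_iff 1).1 (isCpt_obj₃ (rot_of_distTriang _ hT) h2 h3)

end tri

end Pool.Agent.H95.TT
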