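import Pool.Agent.H95.TT.Cpt

/-!
Distinguished triangles presented by three explicit morphisms.
-/

open CategoryTheory CategoryTheory.Limits CategoryTheory.Pretriangulated

namespace Pool.Agent.H95.TT

universe v w

variable {C : Type w} [Category.{v} C] [Preadditive C]
  [HasZeroObject C] [HasShift C ℤ] [∀ n : ℤ, (shiftFunctor C n).Additive] [Pretriangulated C]

/-- The three morphisms form a distinguished triangle. -/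
def Tri {X Y Z : C} (f : X ⟶ Y) (g : Y ⟶ Z) (h : Z ⟶ X⟦(1 : ℤ)⟧) : Prop :=
  Triangle.mk f g h ∈ distTriang C

namespace Tri

variable {X Y Z : C} {f : X ⟶ Y} {g : Y ⟶ Z} {h : Z ⟶ X⟦(1 : ℤ)⟧}

lemma c12 (hT : Tri f g h) : f ≫ g = 0 := comp_distTriang_mor_zero₁₂ _ hT
lemma c23 (hT : Tri f g h) : g ≫ h = 0 := comp_distTriang_mor_zero₂₃ _ hT
lemma c31 (hT : Tri f g h) : h ≫ f⟦(1 : ℤ)⟧' = 0 := comp_distTriang_mor_zero₃₁ _ hT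

lemma rot (hT : Tri f g h) : Tri g h (-f⟦(1 : ℤ)⟧') := rot_of_distTriang _ hT

lemma yo2 (hT : Tri f g h) {W : C} (a : Y ⟶ W) (ha : f ≫ a = 0) : ∃ b : Z ⟶ W, a = g ≫ b :=
  Triangle.yoneda_exact₂ _ hT a ha

lemma yo3 (hT : Tri f g h) {W : C} (a : Z ⟶ W) (ha : g ≫ a = 0) :
    ∃ b : X⟦(1 : ℤ)⟧ ⟶ W, a = h ≫ b :=
  Triangle.yoneda_exact₃ _ hT a ha

lemma co2 (hT : Tri f g h) {W : C} (a : W ⟶ Y) (ha : a ≫ g = 0) : ∃ b : W ⟶ X, a = b ≫ f :=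
  Triangle.coyoneda_exact₂ _ hT a ha

lemma co3 (hT : Tri f g h) {W : C} (a : W ⟶ Z) (ha : a ≫ h = 0) : ∃ b : W ⟶ Y, a = b ≫ g :=
  Triangle.coyoneda_exact₃ _ hT a ha

lemma co1 (hT : Tri f g h) {W : C} (a : W ⟶ X⟦(1 : ℤ)⟧) (ha : a ≫ f⟦(1 : ℤ)⟧' = 0) :
    ∃ b : W ⟶ Z, a = b ≫ h :=
  Triangle.coyoneda_exact₁ _ hT a ha

lemma isZero3_iff (hT : Tri f g h) : IsZero Z ↔ IsIso f :=
  Triangle.isZero₃_iff_isIso₁ _ hT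

lemma isZero1_iff (hT : Tri f g h) : IsZero X ↔ IsIso g :=
  Triangle.isZero₁_iff_isIso₂ _ hT

lemma isCpt3 {C : Type 1} [Category.{0} C] [Preadditive C] [HasCoproducts.{0} C]
    [HasZeroObject C] [HasShift C ℤ] [∀ n : ℤ, (shiftFunctor C n).Additive] [Pretriangulated C]
    {X Y Z : C} {f : X ⟶ Y} {g : Y ⟶ Z} {h : Z ⟶ X⟦(1 : ℤ)⟧} (hT : Tri f g h)
    (hX : Pool.Agent.H75.TT.IsCpt X) (hY : Pool.Agent.H75.TT.IsCpt Y) :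
    Pool.Agent.H75.TT.IsCpt Z := isCpt_obj₃ hT hX hY

lemma isCpt2 {C : Type 1} [Category.{0} C] [Preadditive C] [HasCoproducts.{0} C]
    [HasZeroObject C] [HasShift C ℤ] [∀ n : ℤ, (shiftFunctor C n).Additive] [Pretriangulated C]
    {X Y Z : C} {f : X ⟶ Y} {g : Y ⟶ Z} {h : Z ⟶ X⟦(1 : ℤ)⟧} (hT : Tri f g h)
    (hX : Pool.Agent.H75.TT.IsCpt X) (hZ : Pool.Agent.H75.TT.IsCpt Z) :
    Pool.Agent.H75.TT.IsCpt Y := isCpt_obj₂ hT hX hZ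

lemma isCpt1 {C : Type 1} [Category.{0} C] [Preadditive C] [HasCoproducts.{0} C]
    [HasZeroObject C] [HasShift C ℤ] [∀ n : ℤ, (shiftFunctor C n).Additive] [Pretriangulated C]
    {X Y Z : C} {f : X ⟶ Y} {g : Y ⟶ Z} {h : Z ⟶ X⟦(1 : ℤ)⟧} (hT : Tri f g h)
    (hY : Pool.Agent.H75.TT.IsCpt Y) (hZ : Pool.Agent.H75.TT.IsCpt Z) :
    Pool.Agent.H75.TT.IsCpt X := isCpt_obj₁ hT hY hZ

variable {X' Y' Z' : C} {f' : X' ⟶ Y'} {g' : Y' ⟶ Z'} {h' : Z' ⟶ X'⟦(1 : ℤ)⟧}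

/-- Complete a square on the first two objects. -/
lemma fill3 (hT : Tri f g h) (hT' : Tri f' g' h') (a : X ⟶ X') (b : Y ⟶ Y')
    (hab : f ≫ b = a ≫ f') : ∃ c : Z ⟶ Z', g ≫ c = b ≫ g' ∧ h ≫ a⟦(1 : ℤ)⟧' = c ≫ h' :=
  complete_distinguished_triangle_morphism _ _ hT hT' a b hab

/-- Complete a square on the last two objects. -/
lemma fill1 (hT : Tri f g h) (hT' : Tri f' g' h') (b : Y ⟶ Y') (c : Z ⟶ Z')
    (hbc : g ≫ c = b ≫ g') : ∃ a : X ⟶ X', f ≫ b = a ≫ f' ∧ h ≫ a⟦(1 : ℤ)⟧' = c ≫ h' :=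
  complete_distinguished_triangle_morphism₁ _ _ hT hT' b c hbc

/-- Complete a square on the outer objects. -/
lemma fill2 (hT : Tri f g h) (hT' : Tri f' g' h') (a : X ⟶ X') (c : Z ⟶ Z')
    (hac : h ≫ a⟦(1 : ℤ)⟧' = c ≫ h') : ∃ b : Y ⟶ Y', f ≫ b = a ≫ f' ∧ g ≫ c = b ≫ g' :=
  complete_distinguished_triangle_morphism₂ _ _ hT hT' a c hac

end Tri

lemma exists_tri3 {X Y : C} (f : X ⟶ Y) :
    ∃ (Z : C) (g : Y ⟶ Z) (h : Z ⟶ X⟦(1 : ℤ)⟧), Tri f g h :=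
  distinguished_cocone_triangle f

lemma exists_tri1 {Y Z : C} (g : Y ⟶ Z) :
    ∃ (X : C) (f : X ⟶ Y) (h : Z ⟶ X⟦(1 : ℤ)⟧), Tri f g h := by
  obtain ⟨X, f, h, hT⟩ := distinguished_cocone_triangle₁ g
  exact ⟨X, f, h, hT⟩

lemma exists_tri2 {Z X : C} (h : Z ⟶ X⟦(1 : ℤ)⟧) :
    ∃ (Y : C) (f : X ⟶ Y) (g : Y ⟶ Z), Tri f g h :=
  distinguished_cocone_triangle₂ h

/-- Isomorphic data give distinguished triangles. -/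
lemma Tri.of_iso {X Y Z X' Y' Z' : C} {f : X ⟶ Y} {g : Y ⟶ Z} {h : Z ⟶ X⟦(1 : ℤ)⟧}
    (hT : Tri f g h) {f' : X' ⟶ Y'} {g' : Y' ⟶ Z'} {h' : Z' ⟶ X'⟦(1 : ℤ)⟧}
    (e1 : X ≅ X') (e2 : Y ≅ Y') (e3 : Z ≅ Z') (h1 : f ≫ e2.hom = e1.hom ≫ f')
    (h2 : g ≫ e3.hom = e2.hom ≫ g') (h3 : h ≫ e1.hom⟦(1 : ℤ)⟧' = e3.hom ≫ h') :
    Tri f' g' h' :=
  isomorphic_distinguished _ hT _ (Triangle.isoMk (Triangle.mk f g h) (Triangle.mk f' g' h')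
    e1 e2 e3 h1 h2 h3).symm

/-- A map is an isomorphism if it is bijective on maps from a generating family. -/
lemma isIso_of_bijective {J : Type*} (G : J → C)
    (hG : ∀ Y : C, (∀ (j : J) (n : ℤ) (f : (G j)⟦n⟧ ⟶ Y), f = 0) → IsZero Y)
    {X Y : C} (f : X ⟶ Y)
    (hinj : ∀ (j : J) (n : ℤ) (a : (G j)⟦n⟧ ⟶ X), a ≫ f = 0 → a = 0)
    (hsurj : ∀ (j : J) (n : ℤ) (b : (G j)⟦n⟧ ⟶ Y), ∃ a : (G j)⟦n⟧ ⟶ X, a ≫ f = b) :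
    IsIso f := by
  obtain ⟨Z, g, h, hT⟩ := exists_tri3 f
  rw [← hT.isZero3_iff]
  refine hG Z fun j n a => ?_
  have h0 : a ≫ h = 0 := by
    let e : (G j)⟦n - 1⟧⟦(1 : ℤ)⟧ ≅ (G j)⟦n⟧ :=
      ((shiftFunctorAdd' C (n - 1) 1 n (by ring)).app (G j)).symm
    obtain ⟨b, hb⟩ := (shiftFunctor C (1 : ℤ)).map_surjective (e.hom ≫ a ≫ h)
    have h1 : b ≫ f = 0 := by
      apply (shiftFunctor C (1 : ℤ)).map_injective
      rw [Functor.map_comp, hb, Category.assoc, Category.assoc, hT.c31, comp_zero, comp_zero,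
        Functor.map_zero]
    have h2 := hinj j (n - 1) b h1
    rw [h2, Functor.map_zero] at hb
    rw [← cancel_epi e.hom, ← hb, comp_zero]
  obtain ⟨b, rfl⟩ := hT.co3 a h0
  obtain ⟨c, rfl⟩ := hsurj j n b
  rw [Category.assoc, hT.c12, comp_zero]

end Pool.Agent.H95.TT
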